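import Pool.Agent.helper90.FL.Spec

set_option autoImplicit false

namespace Pool.Agent.helper90.FL

open Finset Polynomial
open scoped Classical

theorem SCG (h : CLS_stmt) : SCG_stmt := by
  intro V E _ s t D C W
  obtain ⟨-, -, h3, -, -⟩ := h V E s t D
  rcases isEmpty_or_nonempty V with hV | hV
  · have h0 : ({T | T ∈ tc s t D C ∧ (T ∩ W).Nonempty} : Set (Set V)) = ∅ := by
      ext T
      simp only [Set.mem_ofPred_eq, Set.mem_empty_iff_false, iff_false]
      rintro ⟨-, ⟨v, -⟩⟩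
      exact hV.elim v
    rw [h0, Set.ncard_empty]
    exact Nat.zero_le _
  · have hf : ∀ T : Set V, ∃ v : V, (T ∩ W).Nonempty → v ∈ T ∩ W := by
      intro T
      by_cases hT : (T ∩ W).Nonempty
      · obtain ⟨v, hv⟩ := hT
        exact ⟨v, fun _ => hv⟩
      · exact ⟨hV.some, fun hh => absurd hh hT⟩
    choose f hf using hf
    have hcl : ∀ T ∈ tc s t D C, ∀ v ∈ T, T = cls s t D v := by
      rintro T ⟨e, -, rfl | rfl⟩ v hv
      · exact (h3 _ _ hv).symm
      · exact (h3 _ _ hv).symm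
    refine Set.ncard_le_ncard_of_injOn f (fun T hT => (hf T hT.2).2) ?_ (Set.toFinite W)
    intro T hT T' hT' hTT
    rw [hcl T hT.1 _ (hf T hT.2).1, hcl T' hT'.1 _ (hf T' hT'.2).1, hTT]

end Pool.Agent.helper90.FL
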